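import Pool.Agent.W516.MTP.Stm

set_option autoImplicit false

namespace Pool.Agent.W828.MTP

open Matrix MvPolynomial Pool.Agent.W516.MTZ Pool.Agent.W516.MTP

variable {m X : Type} [Fintype m] [DecidableEq m] [Fintype X] [DecidableEq X]

/-- the bound -/
def bd (M : Motive m X) : ℕ := ∑ i, M.wt i

theorem op_pow_wt (M : Motive m X) (x : X) (n : ℕ) (i j : m) (h : (M.op x ^ n) i j ≠ 0) :
    M.wt i + n ≤ M.wt j := by
  induction n generalizing j with
  | zero =>
    rw [pow_zero] at h
    by_cases hij : i = j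
    · subst hij; omega
    · exact absurd (Matrix.one_apply_ne hij) h
  | succ n ih =>
    rw [pow_succ, Matrix.mul_apply] at h
    obtain ⟨r, -, hr⟩ := Finset.exists_ne_zero_of_sum_ne_zero h
    have h1 := ih r (left_ne_zero_of_mul hr)
    have h2 := M.op_deg x r j (right_ne_zero_of_mul hr)
    have h3 := M.deg_pos x
    omega

theorem op_pow (M : Motive m X) (x : X) : M.op x ^ (bd M + 1) = 0 := by
  ext i j
  by_contra h
  have h1 := op_pow_wt M x _ i j h
  have h2 : M.wt j ≤ bd M := Finset.single_le_sum (f := M.wt) (fun _ _ => Nat.zero_le _)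
    (Finset.mem_univ j)
  omega

section
variable {A B : Type} [CommRing A] [Algebra ℚ A] [CommRing B] [Algebra ℚ B]

/-- the matrix of `c N` -/
noncomputable def cN (M : Motive m X) (c : A) (x : X) : Matrix m m A :=
  c • (M.op x).map (algebraMap ℚ A)

theorem cN_pow (M : Motive m X) (c : A) (x : X) : cN M c x ^ (bd M + 1) = 0 := by
  have h : (M.op x).map (algebraMap ℚ A) ^ (bd M + 1) = 0 := by
    have h1 : (M.op x).map (algebraMap ℚ A) = (algebraMap ℚ A).mapMatrix (M.op x) := rfl
    rw [h1, ← map_pow, op_pow, map_zero]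
  rw [cN, smul_pow, h, smul_zero]

/-- the exponential as a polynomial -/
noncomputable def E (M : Motive m X) (c : A) (x : X) : Matrix m m A :=
  ∑ i ∈ Finset.range (bd M + 1), ((i.factorial : ℚ)⁻¹) • (cN M c x) ^ i

theorem E_eq (M : Motive m X) (c : A) (x : X) : IsNilpotent.exp (cN M c x) = E M c x :=
  IsNilpotent.exp_eq_sum (cN_pow M c x)

theorem cN_neg (M : Motive m X) (c : A) (x : X) : cN M (-c) x = - cN M c x := by
  rw [cN, cN, neg_smul]

theorem E_mul_neg (M : Motive m X) (c : A) (x : X) : E M c x * E M (-c) x = 1 := by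
  rw [← E_eq, ← E_eq, cN_neg]
  exact IsNilpotent.exp_mul_exp_neg_self ⟨_, cN_pow M c x⟩

theorem map_cN (M : Motive m X) (φ : A →ₐ[ℚ] B) (c : A) (x : X) :
    φ.mapMatrix (cN M c x) = cN M (φ c) x := by
  ext i j
  simp [cN]

theorem map_E (M : Motive m X) (φ : A →ₐ[ℚ] B) (c : A) (x : X) :
    φ.mapMatrix (E M c x) = E M (φ c) x := by
  rw [E, E, map_sum]
  refine Finset.sum_congr rfl fun i _ => ?_
  rw [map_smul, map_pow, map_cN]

/-- products -/
noncomputable def P (M : Motive m X) : List X → (ℕ → A) → Matrix m m A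
  | [], _ => 1
  | x :: xs, c => E M (c 0) x * P M xs (fun i => c (i + 1))

theorem map_P (M : Motive m X) (φ : A →ₐ[ℚ] B) (xs : List X) (c : ℕ → A) :
    φ.mapMatrix (P M xs c) = P M xs (fun i => φ (c i)) := by
  induction xs generalizing c with
  | nil => rw [P, P, map_one]
  | cons x xs ih => rw [P, P, map_mul, map_E, ih]

theorem exists_P (M : Motive m X) (L : List (A × X)) :
    ∃ c : ℕ → A, P M (L.map Prod.snd) c = (L.map fun p => E M p.1 p.2).prod := by
  induction L with
  | nil => exact ⟨fun _ => 0, rfl⟩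
  | cons a L ih =>
    obtain ⟨c, hc⟩ := ih
    refine ⟨fun i => Nat.casesOn i a.1 c, ?_⟩
    rw [List.map_cons, List.map_cons, List.prod_cons, P, ← hc]
    rfl

theorem prod_inv (M : Motive m X) (L : List (A × X)) :
    (L.map fun p => E M p.1 p.2).prod *
      ((L.reverse.map fun p => (-p.1, p.2)).map fun p => E M p.1 p.2).prod = 1 := by
  induction L with
  | nil => simp
  | cons a L ih =>
    rw [List.map_cons, List.prod_cons, List.reverse_cons, List.map_append, List.map_append,
      List.prod_append, mul_assoc, ← mul_assoc (List.prod _) (List.prod _), ih, one_mul]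
    simpa using E_mul_neg M a.1 a.2

end

theorem exists_list {M : Motive m X} {K : Type} [Field K] [CharZero K] {u : (Matrix m m K)ˣ}
    (hu : u ∈ unip M K) : ∃ L : List (K × X),
      (u : Matrix m m K) = (L.map fun p => E M p.1 p.2).prod := by
  refine Subgroup.closure_induction (p := fun (u : (Matrix m m K)ˣ) _ => ∃ L : List (K × X),
      (u : Matrix m m K) = (L.map fun p => E M p.1 p.2).prod) ?_ ?_ ?_ ?_ hu
  · rintro g ⟨c, x, hg⟩
    refine ⟨[(c, x)], ?_⟩
    have h := E_eq M c x
    rw [cN] at h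
    simp only [List.map_cons, List.map_nil, List.prod_cons, List.prod_nil, mul_one]
    rw [hg]
    exact h
  · exact ⟨[], by simp⟩
  · rintro g h _ _ ⟨L, hL⟩ ⟨L', hL'⟩
    refine ⟨L ++ L', ?_⟩
    rw [Units.val_mul, hL, hL', List.map_append, List.prod_append]
  · rintro g _ ⟨L, hL⟩
    refine ⟨L.reverse.map fun p => (-p.1, p.2), ?_⟩
    apply Units.inv_eq_of_mul_eq_one_right
    rw [hL]
    exact prod_inv M L

theorem E_mem (M : Motive m X) (c : ℂ) (x : X) :
    ∃ g ∈ M.gp, ((g : (Matrix m m ℂ)ˣ) : Matrix m m ℂ) = E M c x := by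
  refine ⟨⟨E M c x, E M (-c) x, E_mul_neg M c x, ?_⟩, ?_, rfl⟩
  · have := E_mul_neg M (-c) x
    rwa [neg_neg] at this
  · refine Subgroup.subset_closure (Or.inr ⟨c, x, ?_⟩)
    exact (E_eq M c x).symm

theorem P_mem (M : Motive m X) (xs : List X) (c : ℕ → ℂ) :
    ∃ g ∈ M.gp, ((g : (Matrix m m ℂ)ˣ) : Matrix m m ℂ) = P M xs c := by
  induction xs generalizing c with
  | nil => exact ⟨1, M.gp.one_mem, by rw [P, Units.val_one]⟩
  | cons x xs ih =>
    obtain ⟨g, hg, h1⟩ := E_mem M (c 0) x
    obtain ⟨g', hg', h2⟩ := ih fun i => c (i + 1)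
    exact ⟨g * g', M.gp.mul_mem hg hg', by rw [Units.val_mul, h1, h2, P]⟩

theorem D_mem (M : Motive m X) (l : ℂ) (hl : l ≠ 0) :
    ∃ g ∈ M.gp, ((g : (Matrix m m ℂ)ˣ) : Matrix m m ℂ) = diagonal fun i => l ^ M.wt i := by
  refine ⟨⟨diagonal fun i => l ^ M.wt i, diagonal fun i => (l ^ M.wt i)⁻¹, ?_, ?_⟩, ?_, rfl⟩
  · rw [diagonal_mul_diagonal, ← diagonal_one]
    congr 1
    funext i
    exact mul_inv_cancel₀ (pow_ne_zero _ hl)
  · rw [diagonal_mul_diagonal, ← diagonal_one]
    congr 1
    funext i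
    exact inv_mul_cancel₀ (pow_ne_zero _ hl)
  · exact Subgroup.subset_closure (Or.inl ⟨l, hl, rfl⟩)

/-- the generic matrix -/
noncomputable def Q (M : Motive m X) (xs : List X) : Matrix m m (MvPolynomial (Option ℕ) ℚ) :=
  diagonal (fun i => (MvPolynomial.X none) ^ M.wt i) * P M xs (fun i => MvPolynomial.X (some i))

theorem map_Q {B : Type} [CommRing B] [Algebra ℚ B] (M : Motive m X) (xs : List X)
    (φ : MvPolynomial (Option ℕ) ℚ →ₐ[ℚ] B) :
    φ.mapMatrix (Q M xs) = diagonal (fun i => φ (MvPolynomial.X none) ^ M.wt i) *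
      P M xs (fun i => φ (MvPolynomial.X (some i))) := by
  rw [Q, map_mul, map_P]
  congr 1
  ext i j
  by_cases h : i = j
  · subst h; simp
  · simp [h]

theorem T_PT : Pool.Agent.W516.MTP.StPt := by
  intro m X _ _ _ _ M f hf K _ _ u hu l
  obtain ⟨L, hL⟩ := exists_list hu
  obtain ⟨c, hc⟩ := exists_P M L
  have key : aeval (fun k : m × m => Q M (L.map Prod.snd) k.1 k.2) f = 0 := by
    have h1 : MvPolynomial.X none * aeval (fun k : m × m => Q M (L.map Prod.snd) k.1 k.2) f = 0 := by
      apply MvPolynomial.funext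
      intro v
      rw [map_mul, map_zero, MvPolynomial.eval_X]
      by_cases hv : v none = 0
      · rw [hv, zero_mul]
      · have h2 : algebraMap ℚ ℂ (MvPolynomial.eval v
            (aeval (fun k : m × m => Q M (L.map Prod.snd) k.1 k.2) f)) = 0 := by
          have h3 : algebraMap ℚ ℂ (MvPolynomial.eval v
              (aeval (fun k : m × m => Q M (L.map Prod.snd) k.1 k.2) f)) =
              (aeval (fun i => algebraMap ℚ ℂ (v i)) : MvPolynomial (Option ℕ) ℚ →ₐ[ℚ] ℂ)
                (aeval (fun k : m × m => Q M (L.map Prod.snd) k.1 k.2) f) := by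
            rw [← MvPolynomial.coe_aeval_eq_eval]
            exact (MvPolynomial.aeval_algebraMap_apply ℂ v _).symm
          rw [h3, MvPolynomial.comp_aeval_apply]
          obtain ⟨g, hg, e1⟩ := D_mem M (algebraMap ℚ ℂ (v none)) (by simpa using hv)
          obtain ⟨g', hg', e2⟩ := P_mem M (L.map Prod.snd) (fun i => algebraMap ℚ ℂ (v (some i)))
          have h4 := hf (g * g') (M.gp.mul_mem hg hg')
          rw [← h4]
          congr 1
          congr 1
          funext k
          have h5 := map_Q M (L.map Prod.snd)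
            (aeval (fun i => algebraMap ℚ ℂ (v i)) : MvPolynomial (Option ℕ) ℚ →ₐ[ℚ] ℂ)
          simp only [MvPolynomial.aeval_X] at h5
          rw [← e1, ← e2, ← Units.val_mul] at h5
          rw [crd, ← h5]
          rfl
        have h6 : MvPolynomial.eval v
            (aeval (fun k : m × m => Q M (L.map Prod.snd) k.1 k.2) f) = 0 := by
          simpa using h2
        rw [h6, mul_zero]
    exact (mul_eq_zero.1 h1).resolve_left (MvPolynomial.X_ne_zero _)
  let v : Option ℕ → K := fun i => Option.elim i l c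
  have h7 := congrArg (aeval v : MvPolynomial (Option ℕ) ℚ →ₐ[ℚ] K) key
  rw [MvPolynomial.comp_aeval_apply, map_zero] at h7
  rw [← h7]
  congr 1
  congr 1
  funext k
  have h8 := map_Q M (L.map Prod.snd) (aeval v : MvPolynomial (Option ℕ) ℚ →ₐ[ℚ] K)
  simp only [MvPolynomial.aeval_X] at h8
  have h9 : (fun i => v (some i)) = c := rfl
  rw [h9, hc, ← hL] at h8
  have h10 : v none = l := rfl
  rw [h10] at h8
  rw [← h8]
  rfl

end Pool.Agent.W828.MTP
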